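import Pool.Agent.Run7.h176.TetraLower

/-!
# Face-connected families of regular tetrahedra with a common vertex (MP_254e61_co)

A family of congruent regular tetrahedra with a common vertex `p` and pairwise disjoint interiors
is *face-connected* if any two members can be joined by a sequence of members in which consecutive
ones have a common two-dimensional face. The largest face-connected family has exactly twenty
members, and twenty is already attained by a chain (consecutive members share a face).
-/

namespace Pool.Agent.Results.MP_254e61_co.FaceConnectedFamilies

open Run7.h176

/-- The maximum number of members of a face-connected family of congruent regular tetrahedra with a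
common vertex and pairwise disjoint interiors is twenty; it is attained by a chain. -/
theorem result :
    (∀ (n : ℕ) (ℓ : ℝ) (p : E3) (v : Fin n → Fin 3 → E3),
      IsFamily ℓ p v → FaceConnected v → n ≤ 20) ∧
    ∃ (ℓ : ℝ) (p : E3) (v : Fin 20 → Fin 3 → E3),
      IsFamily ℓ p v ∧ FaceConnected v ∧
        ∀ i : Fin 19, ShareFace (v i.castSucc) (v i.succ) :=
  ⟨fun _ _ _ _ h hc => h.le_twenty hc,
    Real.sqrt 2, 0, chain, chain_family, faceConnected_of_chain chain_share, chain_share⟩

end Pool.Agent.Results.MP_254e61_co.FaceConnectedFamilies
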